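import Pool.Agent.H63.SEP.Stmts2
import Pool.Agent.H13.MA.Lib

/-!
Project SEP, modules MOF, TC1 and common lemmas.
-/

set_option linter.unusedVariables false
set_option synthInstance.maxSize 100000

namespace SW.SEP

open SW

theorem sep_mof (hfrx : FRXStmt) : MOFStmt := by
  intro M _ _ _ J p q T x hp hq hpq h
  rw [hfrx M J q T x hq]
  intro G hG hGq _
  exact (hfrx M J p T x hp).1 h G hG (hG.up q p hGq hp hpq)

section
variable {M : Type} [SetStr M] [ZF M]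

theorem nm_up (hps : PsFacts M) {J K X τ : M} (h : Nm J X τ) (hJK : Sub J K) : Nm K X τ := by
  refine ⟨h.1, fun t ht => ?_⟩
  obtain ⟨q, a, hq, ha, rfl⟩ := h.2 t ht
  exact ⟨q, a, hps.mono hJK hq, ha, rfl⟩

/-- restrictions to systems which meet `C` inside `B` -/
theorem rJ_cap {C J B p : M} (hp : E p (PS C)) (h : ∀ e, E e J → E e C → E e B) :
    Sub (rJ J p) (rJ B p) := by
  intro z hz
  rw [mem_rJ] at hz ⊢
  refine ⟨hz.1, ?_⟩
  have h1 := shp_sub (mem_PS.1 hp).1 z hz.1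
  obtain ⟨a, w, ha, hw, rfl⟩ := mem_prod'.1 h1
  rw [mem_prod, mem_ins] at hz
  rw [mem_ins] at ha
  rw [mem_prod, mem_ins]
  refine ⟨?_, hw⟩
  rcases hz.2.1 with h2 | h2
  · rcases ha with h3 | h3
    · exact Or.inl (h a h2 h3)
    · exact Or.inr h3
  · exact Or.inr h2

/-- the two possibilities for good codes -/
theorem ok_cod (hat : AtFacts M) (hoeq : OEQStmt) {H B r q x i t : M}
    (h : E (cod B r q x i t) (OO H r)) :
    (i = emp ∧ ¬ CanO H (fun r' => OO H r') r B q x) ∨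
      (i = one ∧ ∀ p, E p (PS B) → Sub q p → CanO H (fun r' => OO H r') r B p x) := by
  obtain ⟨-, B', q', x', i', t', he, h2⟩ := (hoeq M H r _).1 h
  obtain ⟨rfl, -, rfl, rfl, rfl, rfl⟩ := hat.cd.1 he
  exact h2

/-- restrictions of conditions which contain a given condition over a subsystem -/
theorem sub_rJ (hps : PsFacts M) {C B p s : M} (hp : E p (PS B)) (hBC : Sub B C)
    (h : Sub p s) : Sub p (rJ C s) := by
  have h1 := hps.rmono (J := C) h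
  rwa [hps.rself hp hBC] at h1

end

theorem sep_tc1 (hatm : ATMStmt) (hpsf : PSFStmt) (hoeq : OEQStmt) (hugd : UGDStmt)
    (hgdc : GDCStmt) (hrfl : RFLStmt) (hmof : MOFStmt) : TC1Stmt := by
  intro M _ _ _ H B T0 T1 t G hH hr hG _ x hx hd
  have hat := hatm M
  have hps := hpsf M
  obtain ⟨⟨hU, hUH, hUg⟩, -⟩ := hugd M H
  have hR : IsR (rul B T0 T1 t) := ⟨B, T0, T1, t, rfl⟩
  obtain ⟨B', q, τ, t', hc, hq, rfl⟩ := hgdc M (UU H) (rul B T0 T1 t) emp G hU hG hr (Or.inr hR)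
    (hat.mem2.2 (Or.inl rfl)) x hx.1 hd
  obtain ⟨hB1, hB2, hB3, hB4, hrB, -, hqB, hτ, -, -, -⟩ := hat.sycd hU hc
  obtain ⟨-, -, -, -, -, hT1⟩ := hat.syrl hU hr
  have hno : ¬ CanO H (fun r' => OO H r') (rul B T0 T1 t) B' q τ := by
    rcases ok_cod hat hoeq (hUg _ _ _ _ _ _ hc hR) with h | h
    · exact h.2
    · exact absurd h.1 hat.ne01
  have hBU : Sub B (UU H) := (hat.syrl hU hr).2.2.1
  obtain ⟨C, hC1, hC2, hC3, hC4, hC5, hC6, p, hp1, hp2, hp3⟩ := hrfl M (UU H) T1 τ B' G hU hG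
    (nm_up hps hT1 hBU) (nm_up hps hτ hB3) hB3 hB1 hx
  obtain ⟨s, hs1, hs2, hs3⟩ := hG.dir p q hp2 hq
  have hsU : E s (PS (UU H)) := hG.sub s hs1
  have hsC : E (rJ C s) (PS C) := hps.rst hU hC3 hsU
  have h1 : Sub p (rJ C s) := sub_rJ hps hp1 (Sub.refl C) hs2
  have h2 : Sub q (rJ C s) := sub_rJ hps hqB hC1 hs3
  refine hno ⟨C, rJ C s, ⟨hC3, hC4, Sub.trans hC2 hUH, hC1, ?_⟩, hsC, h2, B, T0, T1, t, rfl,
    hmof M C p _ T1 τ hp1 hsC h1 hp3⟩
  intro B'' r' q' x' i' t'' h3 _ _ h4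
  exact hUg _ _ _ _ _ _ (hC2 _ h3) h4

end SW.SEP
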