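import Pool.Agent.H93.SEP.TC1
import Pool.Agent.H13.MA.Stmts

/-!
Project SEP, module TC2.
-/

set_option linter.unusedVariables false
set_option synthInstance.maxSize 100000

namespace SW.SEP

open SW

/-- the Sigma-1-3 sets given by `v 0` and `v 1` are disjoint -/
def QDis (N : Type) [SetStr N] (v : Fin 2 → N) : Prop :=
  ∀ x, ¬ ((∃ o, IsOmega o ∧ PhiR o (v 0) x) ∧ (∃ o, IsOmega o ∧ PhiR o (v 1) x))

instance QDis_u : UDf QDis := by unfold QDis PhiR IsPoint; infer_instance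

theorem qdis_iff (htrq : TRQStmt) (N : Type) [SetStr N] [ZF N] (a b : N) :
    QDis N ![a, b] ↔ ∀ x, ¬ (Phi a x ∧ Phi b x) := by
  unfold QDis
  refine forall_congr' fun x => ?_
  rw [← htrq N a x, ← htrq N b x]
  exact Iff.rfl

section
variable {M : Type} [SetStr M] [ZF M]

theorem act_mono {g p q : M} (h : Sub p q) : Sub (act g p) (act g q) := by
  intro z hz
  unfold act at hz ⊢
  rw [mem_img' inferInstance] at hz ⊢
  obtain ⟨y, hy, rfl⟩ := hz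
  exact ⟨y, h y hy, rfl⟩

/-- the union of a correct extension of `B` and a good system -/
theorem codes_union (hat : AtFacts M) {H r C J B : M} (hCg : Good H C)
    (hJ : ExsO H (fun r' => OO H r') r B J) (hBC : Sub B C) :
    ∀ B' r' q x i t, E (cod B' r' q x i t) (bun C J) → E r' (bs r) → IsR r' →
      E (cod B' r' q x i t) (OO H r') := by
  intro B' r' q x i t h hr1 hr2
  by_cases hC : E (cod B' r' q x i t) C
  · exact hCg.2.2 _ _ _ _ _ _ hC hr2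
  · rcases mem_bun.1 h with h | h
    · exact absurd h hC
    · exact hJ.2.2.2.2 _ _ _ _ _ _ h (fun hB => hC (hBC _ hB)) hr1 hr2

theorem good_sub (hat : AtFacts M) {H C U : M} (hU : Good H U) (hC : Sy C) (h : Sub C U) :
    Good H C :=
  ⟨hC, Sub.trans h hU.2.1, fun B r q x i t hc hr => hU.2.2 B r q x i t (h _ hc) hr⟩

end

theorem sep_tc2 (hatm : ATMStmt) (hpsf : PSFStmt) (hisf : ISFStmt) (hoeq : OEQStmt)
    (hugd : UGDStmt) (hclc : CLCStmt) (hsup : SUPStmt) (hexr : EXRStmt) (hcnv : CNVStmt)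
    (hfmi : FMIStmt) (hupw : UPWStmt) (hmof : MOFStmt) (hfrx : FRXStmt) (htrq : TRQStmt)
    (hgdc : GDCStmt) (hrfl : RFLStmt) (hcba : CBAStmt) : TC2Stmt := by
  intro M _ _ _ H B T0 T1 t G hH hr hG _ hdis x hx hd
  have hat := hatm M
  have hps := hpsf M
  have hcb := hcba M
  have hFI := hfmi M
  have hGU := (hugd M H).1
  obtain ⟨hU, hUH, hUg⟩ := hGU
  have hR : IsR (rul B T0 T1 t) := ⟨B, T0, T1, t, rfl⟩
  obtain ⟨B', q, τ, t', hc, hq, rfl⟩ := hgdc M (UU H) (rul B T0 T1 t) one G hU hG hr (Or.inr hR)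
    (hat.mem2.2 (Or.inr rfl)) x hx.1 hd
  obtain ⟨hB1, hB2, hB3, hB4, hrB, -, hqB, hτ, -, -, -⟩ := hat.sycd hU hc
  obtain ⟨hb1, hb2, hBU, hb4, hT0, hT1⟩ := hat.syrl hU hr
  have hBB : Sub B B' := (hat.syrl hB4 hrB).2.2.1
  have hcan : ∀ p, E p (PS B') → Sub q p →
      CanO H (fun r' => OO H r') (rul B T0 T1 t) B' p τ := by
    rcases ok_cod hat hoeq (hUg _ _ _ _ _ _ hc hR) with h | h
    · exact absurd h.1.symm hat.ne01
    · exact h.2
  -- a condition which forces that the sets are disjoint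
  obtain ⟨p2, hp2, hp2'⟩ := ((semF (PF (UU H))).truth QDis G hG ![vl T0, vl T1]).1 (by
    have h1 : (fun i => mk (PF (UU H)) G ((![vl T0, vl T1] : Fin 2 → M) i)) =
        ![mk (PF (UU H)) G (vl T0), mk (PF (UU H)) G (vl T1)] := by
      funext i
      fin_cases i <;> rfl
    rw [h1, qdis_iff htrq]
    exact hdis)
  have hp2U : E p2 (PS (UU H)) := hG.sub p2 hp2
  obtain ⟨c2, hc2a, hc2b, hc2c⟩ := (hsup M (UU H) hU).1 p2 hp2U
  have hcU : Sub (bun B' c2) (UU H) := fun z hz => (mem_bun.1 hz).elim (hB3 z) (hc2b z)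
  obtain ⟨C, hC1, hC2, hC3, hC4, hC5, hC6, p1, hp1, hp1G, hp1F⟩ := hrfl M (UU H) T0 τ
    (bun B' c2) G hU hG (nm_up hps hT0 hBU) (nm_up hps hτ hB3) hcU (hcb.bun hB1 hc2a) hx
  have hBC : Sub B' C := fun z hz => hC1 z (mem_bun.2 (Or.inl hz))
  have hp2C : E p2 (PS C) := hc2c C fun z hz => hC1 z (mem_bun.2 (Or.inr hz))
  have hCH : Sub C H := Sub.trans hC2 hUH
  have hCg : Good H C := good_sub hat (hugd M H).1 hC3 hC2
  obtain ⟨s1, hs1, hs1a, hs1b⟩ := hG.dir p1 p2 hp1G hp2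
  obtain ⟨s, hs, hsa, hsb⟩ := hG.dir s1 q hs1 hq
  have hsU : E s (PS (UU H)) := hG.sub s hs
  have hp : E (rJ C s) (PS C) := hps.rst hU hC3 hsU
  have hpp1 : Sub p1 (rJ C s) := sub_rJ hps hp1 (Sub.refl C) (Sub.trans hs1a hsa)
  have hpp2 : Sub p2 (rJ C s) := sub_rJ hps hp2C (Sub.refl C) (Sub.trans hs1b hsa)
  have hpq : Sub q (rJ C s) := sub_rJ hps hqB hBC hsb
  generalize rJ C s = p at hp hpp1 hpp2 hpq
  -- the correct extension
  have hp4 : E (rJ B' p) (PS B') := hps.rst hC3 hB4 hp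
  obtain ⟨J, p5, hJ, hp5, hp45, B1, T0', T1', t1, he, hF5⟩ := hcan (rJ B' p) hp4
    (sub_rJ hps hqB (Sub.refl B') hpq)
  obtain ⟨rfl, rfl, rfl, rfl⟩ := hat.rl.1 he
  have hBJ : Sub B' J := hJ.2.2.2.1
  obtain ⟨g, J', hg, hgid, hJ', hJC⟩ := hexr M hFI H hH (rul B T0 T1 t) B' J C hR hrB hB4 hB1
    (Sub.trans hB3 hUH) hJ hBC hC4 hCH
  have hI := hisf M g J J' hJ.1 hJ'.1 hg
  have hp5' : E (act g p5) (PS J') := hI.act_in hp5
  have hact4 : act g (rJ B' p) = rJ B' p := hI.idp hBJ hgid hp4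
  have hp45' : Sub (rJ B' p) (act g p5) := by
    have h1 := act_mono (g := g) hp45
    rwa [hact4] at h1
  have hT1B : Nm B' Q4 T1 := nm_up hps hT1 hBB
  have hT0B : Nm B' Q4 T0 := nm_up hps hT0 hBB
  have hF5' : SFm J' (act g p5) T1 τ := by
    have h1 := hFI g J J' p5 T1 τ hJ.1 hJ'.1 hg (nm_up hps hT1B hBJ) (nm_up hps hτ hBJ) hp5 hF5
    rwa [hI.idn hBJ hgid hT1B, hI.idn hBJ hgid hτ] at h1
  have hBJ' : Sub B' J' := hJ'.2.2.2.1
  -- the amalgamation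
  have hK : Sy (bun C J') := hat.sybun hC3 hJ'.1
  have hsub : Sub (rJ J' p) (act g p5) := Sub.trans (rJ_cap hp hJC) hp45'
  have hp6 : E (bun p (act g p5)) (PS (bun C J')) := hps.ama hC3 hJ'.1 hp hp5' hsub
  have hCK : Sub C (bun C J') := fun z hz => mem_bun.2 (Or.inl hz)
  have hJK : Sub J' (bun C J') := fun z hz => mem_bun.2 (Or.inr hz)
  have hF0 : SFm (bun C J') (bun p (act g p5)) T0 τ :=
    hmof M _ p1 _ T0 τ (hps.mono hCK hp1) hp6
      (fun z hz => mem_bun.2 (Or.inl (hpp1 z hz)))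
      (hupw M C _ p1 T0 τ hC3 hK hCK hC5 hC6 hp1 hp1F)
  have hF1 : SFm (bun C J') (bun p (act g p5)) T1 τ :=
    hmof M _ (act g p5) _ T1 τ (hps.mono hJK hp5') hp6
      (fun z hz => mem_bun.2 (Or.inr hz))
      (hupw M J' _ (act g p5) T1 τ hJ'.1 hK hJK (nm_up hps hT1B hBJ') (nm_up hps hτ hBJ')
        hp5' hF5')
  have hKH : Sub (bun C J') H := fun z hz =>
    (mem_bun.1 hz).elim (hCH z) (hJ'.2.2.1 z)
  have hKc : Cb (bun C J') := hcb.bun hC4 hJ'.2.1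
  have hBC' : Sub B C := Sub.trans hBB hBC
  have hbs : Sub (bs (rul B T0 T1 t)) C := by rw [bs_rul]; exact hBC'
  have hbsK : Sub (bs (rul B T0 T1 t)) (bun C J') := Sub.trans hbs hCK
  obtain ⟨g2, K', hg2, hK'1, hK'2, hK'3, hg2id, hK'C⟩ := hcnv M hFI H hH (rul B T0 T1 t)
    (bun C J') C hr hR hK hKc hKH hbsK (codes_union hat hCg hJ' hBC) hbs hC4 hCH
  rw [bs_rul] at hg2id hK'C hbsK
  have hI2 := hisf M g2 (bun C J') K' hK hK'1 hg2
  have hp26 : Sub p2 (bun p (act g p5)) := fun z hz => mem_bun.2 (Or.inl (hpp2 z hz))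
  generalize bun p (act g p5) = p6 at hp6 hF0 hF1 hp26
  have hp7 : E (act g2 p6) (PS K') := hI2.act_in hp6
  have hT0K : Nm (bun C J') Q4 T0 := nm_up hps hT0 hbsK
  have hT1K : Nm (bun C J') Q4 T1 := nm_up hps hT1 hbsK
  have hτK : Nm (bun C J') (prod om om) τ := nm_up hps hC6 hCK
  have hF0' : SFm K' (act g2 p6) T0 (actn g2 τ) := by
    have h1 := hFI g2 _ K' p6 T0 τ hK hK'1 hg2 hT0K hτK hp6 hF0
    rwa [hI2.idn hbsK hg2id hT0] at h1
  have hF1' : SFm K' (act g2 p6) T1 (actn g2 τ) := by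
    have h1 := hFI g2 _ K' p6 T1 τ hK hK'1 hg2 hT1K hτK hp6 hF1
    rwa [hI2.idn hbsK hg2id hT1] at h1
  have hBK' : Sub B K' := fun z hz => by
    have h1 := hg2.1 z (hbsK z hz)
    rwa [hg2id z hz] at h1
  -- the condition over the universal system
  have hw : E (rJ B p2) (PS B) := hps.rst hC3 hb4 hp2C
  have hwact : act g2 (rJ B p2) = rJ B p2 := hI2.idp hbsK hg2id hw
  have hw7 : Sub (rJ B p2) (act g2 p6) := by
    have h1 : Sub (act g2 (rJ B p2)) (act g2 p6) :=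
      act_mono (Sub.trans hps.rsub hp26)
    rwa [hwact] at h1
  have h8 : E (bun p2 (act g2 p6)) (PS (bun C K')) := hps.ama hC3 hK'1 hp2C hp7
    (Sub.trans (rJ_cap hp2C hK'C) hw7)
  have h9 : E (bun p2 (act g2 p6)) (PS (UU H)) := hps.mono
    (fun z hz => (mem_bun.1 hz).elim (hC2 z) (hK'3 z)) h8
  have hp7U : E (act g2 p6) (PS (UU H)) := hps.mono hK'3 hp7
  obtain ⟨G', hG', hG'9⟩ := (semF (PF (UU H))).ex _ h9
  have hG'2 : G' p2 := hG'.up _ p2 hG'9 hp2U fun z hz => mem_bun.2 (Or.inl hz)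
  have hG'7 : G' (act g2 p6) := hG'.up _ _ hG'9 hp7U fun z hz => mem_bun.2 (Or.inr hz)
  haveI : ZF (Ext (PF (UU H)) G') := zfX hG'
  have hτ' : Nm K' (prod om om) (actn g2 τ) := hI2.nm hτK
  have hU0 := hupw M K' (UU H) (act g2 p6) T0 (actn g2 τ) hK'1 hU hK'3 (nm_up hps hT0 hBK') hτ'
    hp7 hF0'
  have hU1 := hupw M K' (UU H) (act g2 p6) T1 (actn g2 τ) hK'1 hU hK'3 (nm_up hps hT1 hBK') hτ'
    hp7 hF1'
  have hP0 := (hfrx M (UU H) (act g2 p6) T0 (actn g2 τ) hp7U).1 hU0 G' hG' hG'7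
  have hP1 := (hfrx M (UU H) (act g2 p6) T1 (actn g2 τ) hp7U).1 hU1 G' hG' hG'7
  have hfin := hp2' G' hG' hG'2
  have h1 : (fun i => mk (PF (UU H)) G' ((![vl T0, vl T1] : Fin 2 → M) i)) =
      ![mk (PF (UU H)) G' (vl T0), mk (PF (UU H)) G' (vl T1)] := by
    funext i
    fin_cases i <;> rfl
  rw [h1, qdis_iff htrq] at hfin
  exact hfin _ ⟨hP0, hP1⟩

end SW.SEP
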