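import Pool.Agent.H93.SEP.TC2

/-!
Project SEP, module TC3.
-/

set_option linter.unusedVariables false
set_option synthInstance.maxSize 100000

namespace SW.SEP

open SW

theorem sep_tc3 (hatm : ATMStmt) (hpsf : PSFStmt) (hisf : ISFStmt) (hoeq : OEQStmt)
    (hugd : UGDStmt) (hclc : CLCStmt) (hexr : EXRStmt)
    (hfmi : FMIStmt) (hupw : UPWStmt) (hmof : MOFStmt) (hfrx : FRXStmt) (hsbx : SBXStmt)
    (hgdc : GDCStmt) (hcba : CBAStmt) : TC3Stmt := by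
  intro M _ _ _ H B T0 T1 t G hH hr hG _ x hx hd
  have hat := hatm M
  have hps := hpsf M
  have hcb := hcba M
  have hFI := hfmi M
  obtain ⟨hU, hUH, hUg⟩ := (hugd M H).1
  have hR : IsR (rul B T0 T1 t) := ⟨B, T0, T1, t, rfl⟩
  obtain ⟨B0, q0, τ0, t0, hc0, hq0, hx0⟩ := hgdc M (UU H) (rul B T0 T1 t) emp G hU hG hr
    (Or.inr hR) (hat.mem2.2 (Or.inl rfl)) x hx hd.1
  obtain ⟨B1, q1, τ1, t1, hc1, hq1, hx1⟩ := hgdc M (UU H) (rul B T0 T1 t) one G hU hG hr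
    (Or.inr hR) (hat.mem2.2 (Or.inr rfl)) x hx hd.2
  obtain ⟨hB01, hB02, hB03, hB04, hrB0, -, hqB0, hτ0, -, -, -⟩ := hat.sycd hU hc0
  obtain ⟨hB11, hB12, hB13, hB14, hrB1, -, hqB1, hτ1, -, -, -⟩ := hat.sycd hU hc1
  obtain ⟨hb1, hb2, hBU, hb4, hT0, hT1⟩ := hat.syrl hU hr
  have hBB0 : Sub B B0 := (hat.syrl hB04 hrB0).2.2.1
  have hBB1 : Sub B B1 := (hat.syrl hB14 hrB1).2.2.1
  have hno : ¬ CanO H (fun r' => OO H r') (rul B T0 T1 t) B0 q0 τ0 := by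
    rcases ok_cod hat hoeq (hUg _ _ _ _ _ _ hc0 hR) with h | h
    · exact h.2
    · exact absurd h.1 hat.ne01
  have hcan : ∀ p, E p (PS B1) → Sub q1 p →
      CanO H (fun r' => OO H r') (rul B T0 T1 t) B1 p τ1 := by
    rcases ok_cod hat hoeq (hUg _ _ _ _ _ _ hc1 hR) with h | h
    · exact absurd h.1.symm hat.ne01
    · exact h.2
  obtain ⟨C, hC1, hC2, hC4, hC3⟩ := hclc M (UU H) (bun B0 B1) hU
    (fun z hz => (mem_bun.1 hz).elim (hB03 z) (hB13 z)) (hcb.bun hB01 hB11)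
  have hB0C : Sub B0 C := fun z hz => hC1 z (mem_bun.2 (Or.inl hz))
  have hB1C : Sub B1 C := fun z hz => hC1 z (mem_bun.2 (Or.inr hz))
  have hCH : Sub C H := Sub.trans hC2 hUH
  have hCg : Good H C := good_sub hat (hugd M H).1 hC3 hC2
  -- the names are equal in the smaller extension
  obtain ⟨hGC, hj⟩ := hsbx M C (UU H) G hC3 hU hC2 hG
  have : ZF (Ext (PF C) (Gr C G)) := zfX hGC
  obtain ⟨j, hj1, hj2, hj3, hj4⟩ := hj
  have heq : mk (PF C) (Gr C G) (vl τ0) = mk (PF C) (Gr C G) (vl τ1) := by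
    apply hj1.inj
    rw [hj4 _ _ (nm_up hps hτ0 hB0C), hj4 _ _ (nm_up hps hτ1 hB1C), ← hx0, ← hx1]
  obtain ⟨p', ⟨hp', hp'G⟩, hp'e⟩ := ((extF hGC).eq_iff _ _).1 heq
  obtain ⟨s1, hs1, hs1a, hs1b⟩ := hG.dir p' q0 hp'G hq0
  obtain ⟨s, hs, hsa, hsb⟩ := hG.dir s1 q1 hs1 hq1
  have hsU : E s (PS (UU H)) := hG.sub s hs
  have hp : E (rJ C s) (PS C) := hps.rst hU hC3 hsU
  have hpp' : Sub p' (rJ C s) := sub_rJ hps hp' (Sub.refl C) (Sub.trans hs1a hsa)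
  have hpq0 : Sub q0 (rJ C s) := sub_rJ hps hqB0 hB0C (Sub.trans hs1b hsa)
  have hpq1 : Sub q1 (rJ C s) := sub_rJ hps hqB1 hB1C hsb
  generalize rJ C s = p at hp hpp' hpq0 hpq1
  have hpe : EqF (PF C) p (vl τ0) (vl τ1) := (eqF (PF C)).mono hp'e hp hpp'
  -- the correct extension
  have hp4 : E (rJ B1 p) (PS B1) := hps.rst hC3 hB14 hp
  obtain ⟨J, p5, hJ, hp5, hp45, B1', T0', T1', t1', he, hF5⟩ := hcan (rJ B1 p) hp4
    (sub_rJ hps hqB1 (Sub.refl B1) hpq1)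
  obtain ⟨rfl, rfl, rfl, rfl⟩ := hat.rl.1 he
  have hBJ : Sub B1 J := hJ.2.2.2.1
  obtain ⟨g, J', hg, hgid, hJ', hJC⟩ := hexr M hFI H hH (rul B T0 T1 t) B1 J C hR hrB1 hB14 hB11
    (Sub.trans hB13 hUH) hJ hB1C hC4 hCH
  have hI := hisf M g J J' hJ.1 hJ'.1 hg
  have hp5' : E (act g p5) (PS J') := hI.act_in hp5
  have hact4 : act g (rJ B1 p) = rJ B1 p := hI.idp hBJ hgid hp4
  have hp45' : Sub (rJ B1 p) (act g p5) := by
    have h1 := act_mono (g := g) hp45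
    rwa [hact4] at h1
  have hT1B : Nm B1 Q4 T1 := nm_up hps hT1 hBB1
  have hF5' : SFm J' (act g p5) T1 τ1 := by
    have h1 := hFI g J J' p5 T1 τ1 hJ.1 hJ'.1 hg (nm_up hps hT1B hBJ) (nm_up hps hτ1 hBJ) hp5 hF5
    rwa [hI.idn hBJ hgid hT1B, hI.idn hBJ hgid hτ1] at h1
  have hBJ' : Sub B1 J' := hJ'.2.2.2.1
  -- the amalgamation
  have hK : Sy (bun C J') := hat.sybun hC3 hJ'.1
  have hp6 : E (bun p (act g p5)) (PS (bun C J')) := hps.ama hC3 hJ'.1 hp hp5'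
    (Sub.trans (rJ_cap hp hJC) hp45')
  have hCK : Sub C (bun C J') := fun z hz => mem_bun.2 (Or.inl hz)
  have hJK : Sub J' (bun C J') := fun z hz => mem_bun.2 (Or.inr hz)
  have hF1 : SFm (bun C J') (bun p (act g p5)) T1 τ1 :=
    hmof M _ (act g p5) _ T1 τ1 (hps.mono hJK hp5') hp6
      (fun z hz => mem_bun.2 (Or.inr hz))
      (hupw M J' _ (act g p5) T1 τ1 hJ'.1 hK hJK (nm_up hps hT1B hBJ') (nm_up hps hτ1 hBJ')
        hp5' hF5')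
  have hKH : Sub (bun C J') H := fun z hz =>
    (mem_bun.1 hz).elim (hCH z) (hJ'.2.2.1 z)
  have hKc : Cb (bun C J') := hcb.bun hC4 hJ'.2.1
  have hpK : E p (PS (bun C J')) := hps.mono hCK hp
  have hp6p : Sub p (bun p (act g p5)) := fun z hz => mem_bun.2 (Or.inl hz)
  have hcod := codes_union hat hCg hJ' hB1C
  generalize bun p (act g p5) = p6 at hp6 hF1 hp6p
  have hF0 : SFm (bun C J') p6 T1 τ0 := by
    rw [hfrx M _ p6 T1 τ0 hp6]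
    intro G' hG' hG'6 _
    have hP := (hfrx M _ p6 T1 τ1 hp6).1 hF1 G' hG' hG'6
    obtain ⟨hGC', hj'⟩ := hsbx M C _ G' hC3 hK hCK hG'
    have : ZF (Ext (PF C) (Gr C G')) := zfX hGC'
    obtain ⟨j', hj1', hj2', hj3', hj4'⟩ := hj'
    have heq' : mk (PF C) (Gr C G') (vl τ0) = mk (PF C) (Gr C G') (vl τ1) :=
      ((extF hGC').eq_iff _ _).2 ⟨p, ⟨hp, hG'.up _ _ hG'6 hpK hp6p⟩, hpe⟩
    have h1 : mk (PF (bun C J')) G' (vl τ0) = mk (PF (bun C J')) G' (vl τ1) := by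
      rw [← hj4' _ _ (nm_up hps hτ0 hB0C), ← hj4' _ _ (nm_up hps hτ1 hB1C), heq']
    rw [h1]
    exact hP
  refine hno ⟨bun C J', p6, ⟨hK, hKc, hKH, Sub.trans hB0C hCK, ?_⟩, hp6, Sub.trans hpq0 hp6p,
    B, T0, T1, t, rfl, hF0⟩
  intro B'' r' q' x' i' t'' h3 _ h4 h5
  exact hcod _ _ _ _ _ _ h3 h4 h5

end SW.SEP
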